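import Pool.Agent.Lib.MP_f40e16_al.Label
import Pool.Agent.Lib.MP_f40e16_al.Rigid

set_option autoImplicit false

namespace Pool.Agent.Results.MP_f40e16_al.RigidCentre

open Filter NNReal
open scoped Pointwise

universe u

/-- word length with respect to a finite set `S` -/
noncomputable def wordLength {G : Type} [Group G] (S : Finset G) (g : G) : ℕ :=
  sInf {n | ∃ w : List G, (∀ a ∈ w, a ∈ S ∨ a⁻¹ ∈ S) ∧ w.length = n ∧ w.prod = g}

/-- `G` with the word metric `d(x, y) = |x⁻¹ y|_S` coarsely embeds into `H` -/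
def CoarselyEmbeds {G : Type} [Group G] (S : Finset G) (H : Type u) [NormedAddCommGroup H] : Prop :=
  ∃ (f : G → H) (ρm ρp : ℝ≥0 → ℝ≥0), Monotone ρm ∧ Monotone ρp ∧ Tendsto ρm atTop atTop ∧
    ∀ x y : G, ρm (wordLength S (x⁻¹ * y)) ≤ ‖f x - f y‖₊ ∧
      ‖f x - f y‖₊ ≤ ρp (wordLength S (x⁻¹ * y))

/-- property PW: a proper commensurating action -/
def PW (G : Type) [Group G] : Prop :=
  ∃ (X : Type) (_ : MulAction G X) (M : Set X), (∀ g : G, (symmDiff (g • M) M).Finite) ∧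
    ∀ R : ℕ, {g : G | (symmDiff (g • M) M).ncard ≤ R}.Finite

/-- the Haagerup property: a proper affine isometric action on a real Hilbert space -/
def Haagerup (G : Type) [Group G] : Prop :=
  ∃ (H : Type) (_ : NormedAddCommGroup H) (_ : InnerProductSpace ℝ H) (_ : CompleteSpace H)
    (α : G →* (H ≃ᵃⁱ[ℝ] H)), ∀ R : ℝ, {g : G | ‖α g 0‖ ≤ R}.Finite

/-- relative property (T) of the pair `(E, N)`, with a Kazhdan pair -/
def RelT {E : Type} [Group E] (N : Subgroup E) : Prop :=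
  ∃ (Q : Finset E) (ε : ℝ), 0 < ε ∧ ∀ (H : Type u) [NormedAddCommGroup H] [InnerProductSpace ℂ H]
    [CompleteSpace H] (ρ : E →* (H ≃ₗᵢ[ℂ] H)),
    (∃ v : H, ‖v‖ = 1 ∧ ∀ q ∈ Q, ‖ρ q v - v‖ < ε) → ∃ w : H, w ≠ 0 ∧ ∀ n ∈ N, ρ n w = w

theorem wl_spec {G : Type} [Group G] {S : Finset G} (hS : Subgroup.closure (S : Set G) = ⊤) (g : G) :
    ∃ w : List G, (∀ a ∈ w, a ∈ S ∨ a⁻¹ ∈ S) ∧ w.length = wordLength S g ∧ w.prod = g := by
  refine Nat.sInf_mem (s := {n | ∃ w : List G, (∀ a ∈ w, a ∈ S ∨ a⁻¹ ∈ S) ∧ w.length = n ∧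
    w.prod = g}) ?_
  have : g ∈ (Subgroup.closure (S : Set G)).toSubmonoid := by rw [hS]; trivial
  rw [Subgroup.closure_toSubmonoid] at this
  obtain ⟨w, h1, h2⟩ := Submonoid.exists_list_of_mem_closure this
  exact ⟨_, w, fun a ha => by simpa using h1 a ha, rfl, h2⟩

theorem ball_finite {G : Type} [Group G] {S : Finset G} (hS : Subgroup.closure (S : Set G) = ⊤)
    (M : ℕ) : {g | wordLength S g ≤ M}.Finite := by
  have : Finite {a : G // a ∈ S ∨ a⁻¹ ∈ S} :=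
    (S.finite_toSet.union S.finite_toSet.inv).to_subtype
  refine ((List.finite_length_le {a : G // a ∈ S ∨ a⁻¹ ∈ S} M).image
    fun w => (w.map Subtype.val).prod).subset fun g hg => ?_
  obtain ⟨w, h1, h2, h3⟩ := wl_spec hS g
  exact ⟨w.attachWith _ h1, by simpa [h2] using hg, by simpa using h3⟩

theorem of_uniform {G : Type} [Group G] {S : Finset G} (hS : Subgroup.closure (S : Set G) = ⊤)
    {H : Type u} [NormedAddCommGroup H] (f : G → H)
    (h1 : ∀ g : G, ∃ C : ℝ, ∀ x : G, ‖f (x * g) - f x‖ ≤ C)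
    (h2 : ∀ R : ℝ, {g : G | ∃ x : G, ‖f (x * g) - f x‖ ≤ R}.Finite) : CoarselyEmbeds S H := by
  choose Cf hCf using h1
  obtain ⟨C', hC'⟩ := ((S.finite_toSet.union S.finite_toSet.inv).image Cf).bddAbove
  have hw : ∀ w : List G, (∀ a ∈ w, a ∈ S ∨ a⁻¹ ∈ S) → ∀ x,
      ‖f x - f (x * w.prod)‖ ≤ C'.toNNReal * w.length := by
    intro w
    induction w with
    | nil => simp
    | cons a w ih =>
      intro h x
      have a1 := ih (fun b hb => h b (List.mem_cons_of_mem _ hb)) (x * a)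
      have a2 := ((hCf a x).trans (hC' ⟨a, by simpa using h a (by simp), rfl⟩)).trans
        (Real.le_coe_toNNReal C')
      rw [norm_sub_rev] at a2
      have a3 := norm_sub_le_norm_sub_add_norm_sub (f x) (f (x * a)) (f (x * a * w.prod))
      rw [List.prod_cons, ← mul_assoc, List.length_cons]
      push_cast
      linarith
  let A : ℝ≥0 → Set ℝ≥0 := fun t =>
    insert t {r | ∃ x y, t ≤ wordLength S (x⁻¹ * y) ∧ r = ‖f x - f y‖₊}
  refine ⟨f, fun t => sInf (A t), fun t => C'.toNNReal * t, fun t t' h => ?_,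
    fun t t' h => mul_le_mul_right h _, ?_, fun x y => ⟨?_, ?_⟩⟩
  · refine le_csInf (Set.insert_nonempty _ _) ?_
    rintro r (rfl | ⟨x, y, a1, rfl⟩)
    · exact (csInf_le' (Set.mem_insert _ _)).trans h
    · exact csInf_le' (Or.inr ⟨x, y, h.trans a1, rfl⟩)
  · rw [tendsto_atTop_atTop]
    intro R
    obtain ⟨M, hM⟩ := ((h2 R).image (wordLength S)).bddAbove
    refine ⟨max R (M + 1), fun t ht => le_csInf (Set.insert_nonempty _ _) ?_⟩
    rintro r (rfl | ⟨x, y, a1, rfl⟩)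
    · exact (le_max_left _ _).trans ht
    · by_contra hc
      have a2 : ‖f x - f y‖ ≤ R := by exact_mod_cast (not_le.1 hc).le
      have a3 := hM ⟨x⁻¹ * y, ⟨x, by simpa [norm_sub_rev] using a2⟩, rfl⟩
      have a4 : ((M + 1 : ℕ) : ℝ≥0) ≤ wordLength S (x⁻¹ * y) := by
        push_cast; exact ((le_max_right _ _).trans ht).trans a1
      have a5 : M + 1 ≤ wordLength S (x⁻¹ * y) := by exact_mod_cast a4
      omega
  · exact csInf_le' (Or.inr ⟨x, y, le_rfl, rfl⟩)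
  · obtain ⟨w, a1, a2, a3⟩ := wl_spec hS (x⁻¹ * y)
    have := hw w a1 x
    rw [a3, mul_inv_cancel_left, a2] at this
    exact_mod_cast this

theorem to_uniform {G : Type} [Group G] {S : Finset G} (hS : Subgroup.closure (S : Set G) = ⊤)
    {H : Type u} [NormedAddCommGroup H] (h : CoarselyEmbeds S H) : ∃ f : G → H,
    (∀ g : G, ∃ C : ℝ, ∀ x : G, ‖f (x * g) - f x‖ ≤ C) ∧
    (∀ R : ℝ, {g : G | ∃ x : G, ‖f (x * g) - f x‖ ≤ R}.Finite) := by
  obtain ⟨f, ρm, ρp, -, -, h3, h4⟩ := h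
  refine ⟨f, fun g => ⟨ρp (wordLength S g), fun x => ?_⟩, fun R => ?_⟩
  · have := (h4 x (x * g)).2
    rw [inv_mul_cancel_left] at this
    rw [norm_sub_rev]
    exact_mod_cast this
  · obtain ⟨T, hT⟩ := tendsto_atTop_atTop.1 h3 (R.toNNReal + 1)
    refine (ball_finite hS ⌈T⌉₊).subset ?_
    rintro g ⟨x, hx⟩
    by_contra hc
    have a1 : ⌈T⌉₊ ≤ wordLength S g := (not_le.1 hc).le
    have a2 := (hT _ (Nat.ceil_le.1 a1)).trans (by simpa using (h4 x (x * g)).1)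
    have a3 : (R.toNNReal : ℝ) + 1 ≤ ‖f x - f (x * g)‖ := by exact_mod_cast a2
    rw [norm_sub_rev] at hx
    have := Real.le_coe_toNNReal R
    linarith

theorem result : ∃ (G E : Type) (_ : Group G) (_ : Group E)
    (i : Multiplicative ℤ →* E) (π : E →* G),
    Group.FG G ∧ Group.FG E ∧ Function.Injective i ∧ Function.Surjective π ∧
    i.range = π.ker ∧ i.range ≤ Subgroup.center E ∧
    PW G ∧ Haagerup G ∧
    (∀ S : Finset G, Subgroup.closure (S : Set G) = ⊤ →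
      CoarselyEmbeds S (lp (fun _ : ℕ => ℝ) 2)) ∧
    RelT.{u} i.range ∧ ¬ Haagerup E ∧
    (∀ T : Finset E, Subgroup.closure (T : Set E) = ⊤ →
      ∀ (𝕜 : Type) [RCLike 𝕜] (H : Type u) [NormedAddCommGroup H] [InnerProductSpace 𝕜 H]
        [CompleteSpace H], ¬ CoarselyEmbeds T H) := by
  obtain ⟨B, hB⟩ := Pool.Agent.Lib.MP_f40e16_al.exists_base
  obtain ⟨G, E, _, _, h1, h1', ⟨⟨f, a1, a2⟩, pc⟩, i, π, h3, h4, h5, h6, γ, h7⟩ :=
    Pool.Agent.Lib.MP_f40e16_al.Cube.exists_groups_pc B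
  obtain ⟨X, _, M, m1, m2⟩ := Pool.Agent.Lib.MP_f40e16_al.Cube.pw_of_pc pc
  refine ⟨G, E, _, _, i, π, h1, h1', h3, h4, h5, h6, ⟨X, _, M, m1, m2⟩,
    ⟨_, _, _, inferInstance, Pool.Agent.Lib.MP_f40e16_al.Cube.haagerup_of_pw M m1 m2⟩,
    fun S hS => of_uniform hS f a1 a2,
    Pool.Agent.Lib.MP_f40e16_al.Cube.rel_T i h6 γ h7 1650 hB, ?_,
    fun T hT 𝕜 _ H _ _ _ h => ?_⟩
  · rintro ⟨H, _, _, _, α, hα⟩
    have e : ∀ x g, ‖α (x * g) 0 - α x 0‖ = ‖α g 0‖ := by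
      intro x g
      rw [← dist_eq_norm, α.map_mul, AffineIsometryEquiv.coe_mul, Function.comp_apply,
        AffineIsometryEquiv.dist_map, dist_zero_right]
    refine Pool.Agent.Lib.MP_f40e16_al.not_ce i h3 h6 γ h7 1650 hB
      ⟨fun x => α x 0, fun g => ⟨_, fun x => (e x g).le⟩, fun R => (hα R).subset ?_⟩
    rintro g ⟨x, hx⟩
    exact (e x g).ge.trans hx
  · let _ := InnerProductSpace.rclikeToReal 𝕜 H
    exact Pool.Agent.Lib.MP_f40e16_al.not_ce i h3 h6 γ h7 1650 hB (to_uniform hT h)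

end Pool.Agent.Results.MP_f40e16_al.RigidCentre
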